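import Mathlib
import Pool.Agent.MP_2c723a_al.Defs
import Pool.Agent.MP_2c723a_al.Proof

namespace Pool.Agent.Results.MP_2c723a_al.RootOfUnity

open Pool.Agent.MP_2c723a_al

theorem result (K : Type) [Field K] [Infinite K] (n : ℕ) (hn : 3 ≤ n) (q : K)
    (hq : IsPrimitiveRoot q n) :
    ∃ (V : Type) (_ : AddCommGroup V) (_ : Module K V) (_ : FiniteDimensional K V)
      (A B : Module.End K V),
      TDRelations (q + q⁻¹) 0 0 (-(q - q⁻¹) ^ 2) (-(q - q⁻¹) ^ 2) A B ∧
      IrreduciblePair A B ∧ Diagonalizable A ∧ Diagonalizable B ∧ ¬ IsTDPair A B ∧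
      Module.finrank K (B.eigenspace 2) = 1 ∧ Module.finrank K (B.eigenspace (q + q⁻¹)) = 2 := by
  have : NeZero n := ⟨by omega⟩
  obtain ⟨A, B, h⟩ := main hn hq
  exact ⟨ZMod n → K, inferInstance, inferInstance, inferInstance, A, B, h⟩

end Pool.Agent.Results.MP_2c723a_al.RootOfUnity
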